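import Mathlib

namespace Pool.Agent.Results.MP_67ce71_gt.Cocountable

open Set Topology

/-- A reflexive, transitive, complete relation. -/
def TotalPreorder {X : Type} (r : X → X → Prop) : Prop :=
  (∀ x, r x x) ∧ (∀ x y z, r x y → r y z → r x z) ∧ ∀ x y, r x y ∨ r y x

/-- Every `U(x) = {y | x ≺ y}` is open. -/
def LowerSC {X : Type} [TopologicalSpace X] (r : X → X → Prop) : Prop :=
  ∀ x, IsOpen {y | r x y ∧ ¬ r y x}

/-- Every `L(x) = {y | y ≺ x}` is open. -/
def UpperSC {X : Type} [TopologicalSpace X] (r : X → X → Prop) : Prop :=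
  ∀ x, IsOpen {y | r y x ∧ ¬ r x y}

/-- `u` is a utility representation of `r`. -/
def Represents {X : Type} (u : X → ℝ) (r : X → X → Prop) : Prop := ∀ x y, r x y ↔ u x ≤ u y

/-- The semicontinuous representability property. -/
def SRP (X : Type) [TopologicalSpace X] : Prop :=
  (∀ r : X → X → Prop, TotalPreorder r → LowerSC r →
    ∃ u, Represents u r ∧ ∀ a, IsOpen {x | a < u x}) ∧
  ∀ r : X → X → Prop, TotalPreorder r → UpperSC r →
    ∃ u, Represents u r ∧ ∀ a, IsOpen {x | u x < a}

/-- The continuous representability property. -/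
def CRP (X : Type) [TopologicalSpace X] : Prop :=
  ∀ r : X → X → Prop, TotalPreorder r → LowerSC r → UpperSC r → ∃ u, Represents u r ∧ Continuous u

/-- The hereditary continuous representability property. -/
def HCRP (X : Type) [TopologicalSpace X] : Prop := ∀ Y : Set X, Y.Nonempty → CRP Y

lemma rep_count {Y : Type} [Countable Y] (r : Y → Y → Prop) (hr : TotalPreorder r) :
    ∃ u, Represents u r := by
  classical
  obtain ⟨e, he⟩ := exists_injective_nat Y
  let w : Y → Y → ℝ := fun x z => if r z x ∧ ¬ r x z then (1 / 2) ^ e z else 0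
  have s0 : Summable fun z => (1 / 2 : ℝ) ^ e z := summable_geometric_two.comp_injective he
  have s : ∀ x, Summable (w x) := fun x => s0.of_nonneg_of_le
    (fun z => by simp only [w]; split_ifs <;> positivity)
    (fun z => by simp only [w]; split_ifs <;> [exact le_rfl; positivity])
  have m : ∀ x y, r x y → ∀ z, w x z ≤ w y z := by
    intro x y h z
    simp only [w]
    split_ifs with h1 h2
    · exact le_rfl
    · exact absurd ⟨hr.2.1 _ _ _ h1.1 h, fun h3 => h1.2 (hr.2.1 _ _ _ h h3)⟩ h2
    · positivity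
    · exact le_rfl
  refine ⟨fun x => ∑' z, w x z, fun x y => ⟨fun h => (s x).tsum_le_tsum (m x y h) (s y), ?_⟩⟩
  intro h
  by_contra hn
  have h1 := (hr.2.2 x y).resolve_left hn
  refine absurd h (not_le.2 ((s y).tsum_lt_tsum (i := y) (m y x h1) ?_ (s x)))
  simp only [w]
  rw [if_neg (fun h => h.2 h.1), if_pos ⟨h1, hn⟩]
  positivity

def W : Type := (Cardinal.aleph 1).ord.ToType

noncomputable instance : LinearOrder W := inferInstanceAs (LinearOrder (Cardinal.aleph 1).ord.ToType)
instance : WellFoundedLT W := inferInstanceAs (WellFoundedLT (Cardinal.aleph 1).ord.ToType)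

lemma W_unc : ¬ (univ : Set W).Countable := by
  rw [← Cardinal.le_aleph0_iff_set_countable, Cardinal.mk_univ, not_le]
  change _ < Cardinal.mk (Cardinal.aleph 1).ord.ToType
  rw [Cardinal.mk_ord_toType]
  exact Cardinal.aleph0_lt_aleph_one

lemma W_Iic (x : W) : (Iic x).Countable := by
  rw [← Iio_insert]
  refine Countable.insert _ ?_
  rw [← Cardinal.le_aleph0_iff_set_countable, ← Order.lt_succ_iff, Cardinal.succ_aleph0]
  exact Cardinal.mk_Iio_toType_ord_lt (c := Cardinal.aleph 1) x

instance : TopologicalSpace W where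
  IsOpen S := S.Nonempty → Sᶜ.Countable
  isOpen_univ := by simp
  isOpen_inter S T hS hT h := by
    rw [compl_inter]; exact (hS (h.mono inter_subset_left)).union (hT (h.mono inter_subset_right))
  isOpen_sUnion s hs := by
    rintro ⟨x, t, ht, hx⟩
    exact (hs t ht ⟨x, hx⟩).mono (compl_subset_compl.2 (subset_sUnion_of_mem ht))

lemma open_iff (S : Set W) : IsOpen S ↔ (S.Nonempty → Sᶜ.Countable) := Iff.rfl

theorem result : ∃ (X : Type) (_ : TopologicalSpace X), T1Space X ∧ HCRP X ∧ ¬ SRP X := by
  refine ⟨W, inferInstance, ⟨fun x => ⟨(open_iff _).2 fun _ => by simp⟩⟩, fun Y _ r hr h1 h2 => ?_,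
    fun h => ?_⟩
  · by_cases hY : Y.Countable
    · have := hY.to_subtype
      have : DiscreteTopology Y := by
        rw [discreteTopology_subtype_iff']
        intro y hy
        refine ⟨(Y \ {y})ᶜ, (open_iff _).2 fun _ => by simpa using hY.mono sdiff_subset, ?_⟩
        ext z; simp only [mem_inter_iff, mem_compl_iff, mem_sdiff, mem_singleton_iff]
        constructor
        · tauto
        · rintro rfl; tauto
      obtain ⟨u, hu⟩ := rep_count r hr
      exact ⟨u, hu, continuous_of_discreteTopology⟩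
    · have meet : ∀ A B : Set Y, IsOpen A → IsOpen B → A.Nonempty → B.Nonempty →
          (A ∩ B).Nonempty := by
        intro A B hA hB ⟨a, ha⟩ ⟨b, hb⟩
        obtain ⟨A', hA', rfl⟩ := isOpen_induced_iff.1 hA
        obtain ⟨B', hB', rfl⟩ := isOpen_induced_iff.1 hB
        by_contra hn
        refine hY ((((open_iff _).1 hA' ⟨_, ha⟩).union ((open_iff _).1 hB' ⟨_, hb⟩)).mono
          fun y hy => ?_)
        by_contra h3
        simp only [mem_union, mem_compl_iff, not_or, not_not] at h3
        exact hn ⟨⟨y, hy⟩, h3⟩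
      refine ⟨fun _ => 0, fun x y => iff_of_true ?_ le_rfl, continuous_const⟩
      by_contra hn
      have hyx := (hr.2.2 x y).resolve_left hn
      obtain ⟨z, z1, z2⟩ := meet _ _ (h1 y) (h2 x) ⟨x, hyx, hn⟩ ⟨y, hyx, hn⟩
      obtain ⟨t, t1, t2⟩ := meet _ _ (h1 z) (h2 z) ⟨x, z2⟩ ⟨y, z1⟩
      exact t1.2 t2.1
  · obtain ⟨u, hu, -⟩ := h.1 (· ≤ ·) ⟨le_refl, fun _ _ _ => le_trans, le_total⟩ fun x =>
      (open_iff _).2 fun _ => (W_Iic x).mono fun y hy => by
        by_contra h; exact hy ⟨(not_le.1 h).le, h⟩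
    refine W_unc ((countable_image_lt_image_Ioi u).mono fun x _ => ?_)
    have ne : (Ioi x).Nonempty := by
      by_contra hn
      refine W_unc ((W_Iic x).mono fun y _ => ?_)
      by_contra h; exact hn ⟨y, by simpa using h⟩
    obtain ⟨m, hm, hmin⟩ := wellFounded_lt.has_min _ ne
    refine ⟨u m, not_le.1 fun h => absurd ((hu m x).2 h) (not_le.2 hm), fun y hy => ?_⟩
    exact (hu m y).1 (not_lt.1 (hmin y hy))

end Pool.Agent.Results.MP_67ce71_gt.Cocountable
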